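import Pool.Agent.Helper11.PlaneEuler.Euler

set_option autoImplicit false

open Filter Topology
open scoped commutatorElement

namespace Pool.Agent.Results.MP_aecd5f_gt.NoMilnorWood

open Pool.Agent.Helper11.PlaneEuler Pool.Agent.Helper11.PlaneEuler.Lin

noncomputable section

/-- analytic in both directions with positive Jacobian determinant -/
def Good (f : ℂ ≃ₜ ℂ) : Prop :=
  BiAnalytic f ∧ ∀ z : ℂ, 0 < (fderiv ℝ (f : ℂ → ℂ) z).det

theorem det_id : (ContinuousLinearMap.id ℝ ℂ).det = 1 := by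
  unfold ContinuousLinearMap.det
  exact LinearMap.det_id

theorem Good.one : Good 1 := by
  refine ⟨BiAnalytic.one, fun z => ?_⟩
  have h : ((1 : ℂ ≃ₜ ℂ) : ℂ → ℂ) = id := rfl
  rw [h, fderiv_id, det_id]
  exact one_pos

theorem det_comp (A B : ℂ →L[ℝ] ℂ) : (A.comp B).det = A.det * B.det := by
  unfold ContinuousLinearMap.det
  rw [← LinearMap.det_comp]
  rfl

theorem Good.mul {f g : ℂ ≃ₜ ℂ} (hf : Good f) (hg : Good g) : Good (f * g) := by
  refine ⟨hf.1.mul hg.1, fun z => ?_⟩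
  have h : ((f * g : ℂ ≃ₜ ℂ) : ℂ → ℂ) = (f : ℂ → ℂ) ∘ g := rfl
  rw [h, fderiv_comp z ((hf.1.1 _ trivial).differentiableAt) ((hg.1.1 _ trivial).differentiableAt),
    det_comp]
  exact mul_pos (hf.2 _) (hg.2 _)

theorem det_inv_mul {f : ℂ ≃ₜ ℂ} (hf : BiAnalytic f) (z : ℂ) :
    (fderiv ℝ (f⁻¹ : ℂ ≃ₜ ℂ) (f z)).det * (fderiv ℝ (f : ℂ → ℂ) z).det = 1 := by
  rw [← det_comp, ← fderiv_comp z ((hf.inv.1 _ trivial).differentiableAt)
    ((hf.1 _ trivial).differentiableAt)]
  have h : ((f⁻¹ : ℂ ≃ₜ ℂ) : ℂ → ℂ) ∘ (f : ℂ → ℂ) = id := by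
    funext w; exact f.symm_apply_apply w
  rw [h, fderiv_id, det_id]

theorem Good.inv {f : ℂ ≃ₜ ℂ} (hf : Good f) : Good f⁻¹ := by
  refine ⟨hf.1.inv, fun z => ?_⟩
  have h := det_inv_mul hf.1 (f⁻¹ z)
  have h2 : f (f⁻¹ z) = z := f.apply_symm_apply z
  rw [h2] at h
  have h3 := hf.2 (f⁻¹ z)
  by_contra h4
  push Not at h4
  have := mul_nonpos_of_nonpos_of_nonneg h4 h3.le
  linarith

/-- a bianalytic map whose derivative at one point is a positive multiple of the identity is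
orientation preserving everywhere -/
theorem good_of_point (f : ℂ ≃ₜ ℂ) (hf : BiAnalytic f) (c : ℂ) (r : ℝ) (hr : 0 < r)
    (hd : fderiv ℝ (f : ℂ → ℂ) c = r • ContinuousLinearMap.id ℝ ℂ) : Good f := by
  refine ⟨hf, fun z => ?_⟩
  have hc : Continuous (fun z => (fderiv ℝ (f : ℂ → ℂ) z).det) := by
    apply ContinuousLinearMap.continuous_det.comp
    rw [continuous_iff_continuousAt]
    intro z
    exact (hf.1 z trivial).fderiv.continuousAt
  have hne : ∀ z, (fderiv ℝ (f : ℂ → ℂ) z).det ≠ 0 := by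
    intro z h
    have h2 := det_inv_mul hf z
    rw [h, mul_zero] at h2
    exact zero_ne_one h2
  have hpos : 0 < (fderiv ℝ (f : ℂ → ℂ) c).det := by
    rw [hd]
    have : (r • ContinuousLinearMap.id ℝ ℂ).det = r ^ 2 := by
      unfold ContinuousLinearMap.det
      have h : ((r • ContinuousLinearMap.id ℝ ℂ : ℂ →L[ℝ] ℂ) : ℂ →ₗ[ℝ] ℂ) = r • LinearMap.id := rfl
      rw [h, LinearMap.det_smul, Complex.finrank_real_complex, LinearMap.det_id, mul_one]
    rw [this]
    positivity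
  by_contra h
  push Not at h
  have h0 : (0 : ℝ) ∈ Set.range (fun z => (fderiv ℝ (f : ℂ → ℂ) z).det) :=
    mem_range_of_exists_le_of_exists_ge hc ⟨z, h⟩ ⟨c, hpos.le⟩
  obtain ⟨w, hw⟩ := h0
  exact hne w hw

theorem good_dil (c : ℂ) (r : ℝ) (hr : 0 < r) : Good (dil c r hr.ne') := by
  apply good_of_point _ (dil_analytic c r hr.ne') c r hr
  apply HasFDerivAt.fderiv
  have h : (dil c r hr.ne' : ℂ → ℂ) = fun z => c + (r • ContinuousLinearMap.id ℝ ℂ) (z - c) := by
    funext z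
    rw [dil_apply]
    simp
  rw [h]
  have h2 : HasFDerivAt (fun z : ℂ => z - c) (ContinuousLinearMap.id ℝ ℂ) c :=
    (hasFDerivAt_id c).sub_const c
  exact (((r • ContinuousLinearMap.id ℝ ℂ).hasFDerivAt).comp c h2).const_add c

theorem good_of_strict (f : ℂ ≃ₜ ℂ) (hf : BiAnalytic f) (c : ℂ)
    (hd : HasStrictFDerivAt (f : ℂ → ℂ) (ContinuousLinearMap.id ℝ ℂ) c) : Good f := by
  apply good_of_point f hf c 1 one_pos
  rw [hd.hasFDerivAt.fderiv, one_smul]

/-- the relator maps to the product of commutators -/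
theorem lift_relator {G : Type} [Group G] (g : ℕ) (f : Fin g ⊕ Fin g → G) :
    FreeGroup.lift f (surfaceRelator g) =
      (List.ofFn fun i : Fin g => ⁅f (Sum.inl i), f (Sum.inr i)⁆).prod := by
  unfold surfaceRelator
  rw [map_list_prod, List.map_ofFn]
  congr 2
  funext i
  simp [map_commutatorElement]

theorem prod_ones {G : Type} [Group G] (k : ℕ) :
    (List.ofFn fun _ : Fin k => ⁅(1 : G), (1 : G)⁆).prod = 1 := by
  rw [List.ofFn_const, List.prod_replicate]
  simp

/-- families supported on the first two indices -/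
def fam {G : Type} [Group G] (k : ℕ) (x y : G) : Fin (k + 2) → G :=
  Fin.cons x (Fin.cons y (fun _ => 1))

theorem prod_fam {G : Type} [Group G] (k : ℕ) (x y z w : G) :
    (List.ofFn fun i : Fin (k + 2) => ⁅fam k x y i, fam k z w i⁆).prod = ⁅x, z⁆ * ⁅y, w⁆ := by
  rw [List.ofFn_succ, List.ofFn_succ, List.prod_cons, List.prod_cons]
  have h : (fun i : Fin k => ⁅fam k x y i.succ.succ, fam k z w i.succ.succ⁆) =
      fun _ => ⁅(1 : G), (1 : G)⁆ := rfl
  rw [h, prod_ones, mul_one]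
  rfl

theorem fam_map {G K : Type} [Group G] [Group K] (φ : G →* K) (k : ℕ) (x y : G) (i : Fin (k + 2)) :
    φ (fam k x y i) = fam k (φ x) (φ y) i := by
  refine Fin.cases rfl (fun j => ?_) i
  refine Fin.cases rfl (fun l => ?_) j
  exact φ.map_one

theorem comm_left {G : Type} [Group G] (z x y : G) (hz : ∀ w, z * w = w * z) :
    ⁅z * x, y⁆ = ⁅x, y⁆ := by
  rw [commutatorElement_def, commutatorElement_def, mul_inv_rev]
  have h1 : z⁻¹ * y⁻¹ = y⁻¹ * z⁻¹ := by
    rw [← mul_inv_rev, ← mul_inv_rev, hz y]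
  calc z * x * y * (x⁻¹ * z⁻¹) * y⁻¹ = z * (x * y * x⁻¹) * (z⁻¹ * y⁻¹) := by
        simp only [mul_assoc]
    _ = (x * y * x⁻¹) * z * (y⁻¹ * z⁻¹) := by rw [hz (x * y * x⁻¹), h1]
    _ = (x * y * x⁻¹) * (z * (y⁻¹ * z⁻¹)) := by rw [mul_assoc]
    _ = (x * y * x⁻¹) * y⁻¹ := by rw [hz (y⁻¹ * z⁻¹), inv_mul_cancel_right]

theorem comm_right {G : Type} [Group G] (z x y : G) (hz : ∀ w, z * w = w * z) :
    ⁅x, z * y⁆ = ⁅x, y⁆ := by
  have h := congrArg (fun w => w⁻¹) (comm_left z y x hz)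
  simpa only [commutatorElement_inv] using h

/-- commutators do not see central factors -/
theorem comm_central (k l : ℤ) (F G : PlaneLift) : ⁅central k * F, central l * G⁆ = ⁅F, G⁆ := by
  rw [comm_left _ _ _ (central_comm k), comm_right _ _ _ (central_comm l)]

/-- sanity check: `central` is injective -/
theorem central_injective {m n : ℤ} (h : central m = central n) : m = n := by
  have h2 : (central m).angle ⟨(0, 1), by simp⟩ = (central n).angle ⟨(0, 1), by simp⟩ := by rw [h]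
  have h3 : 2 * Real.pi * (m : ℝ) = 2 * Real.pi * (n : ℝ) := h2
  have h4 : (m : ℝ) = n := mul_left_cancel₀ (by positivity) h3
  exact_mod_cast h4

/-- sanity check: an action has at most one Euler number -/
theorem euler_number_unique {g : ℕ} (ρ : SurfaceGroup g →* (ℂ ≃ₜ ℂ)) (m n : ℤ)
    (hm : HasEulerNumber ρ m) (hn : HasEulerNumber ρ n) : m = n := by
  obtain ⟨⟨A, B, hA, hB⟩, h⟩ := hm
  exact central_injective ((h A B hA hB).symm.trans (hn.2 A B hA hB))

/-- every genus at least two and every integer occurs as an Euler number -/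
theorem result (g : ℕ) (hg : 2 ≤ g) (n : ℤ) :
    ∃ ρ : SurfaceGroup g →* (ℂ ≃ₜ ℂ), IsAnalyticAction ρ ∧ HasEulerNumber ρ n := by
  obtain ⟨k, rfl⟩ : ∃ k, g = k + 2 := ⟨g - 2, by omega⟩
  -- the constants
  set M : ℝ := 4 + 36 * |kap n| with hMdef
  have hk0 : 0 ≤ |kap n| := abs_nonneg _
  have hM4 : 4 ≤ M := by linarith
  have hM : 1 < M := by linarith
  have hMM : M ≤ M ^ 3 := by nlinarith [sq_nonneg M, sq_nonneg (M - 1)]
  have h1 : 4 ≤ M ^ 3 := by linarith
  have h2 : 2 * (1 + 18 * |kap n|) ≤ M ^ 3 := by linarith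
  have hM0 : 0 < M ^ 3 := by linarith
  -- the homeomorphisms
  set tw : ℂ ≃ₜ ℂ := twist (psi n) with htw
  set bbb : ℂ ≃ₜ ℂ := bb (kap n) M hM h1 h2 with hbbb
  set dM : ℂ ≃ₜ ℂ := dil 1 (M ^ 3) hM0.ne' with hdM
  obtain ⟨T, hT, hTa⟩ := twist_lift (psi n) (psi_zero n) (psi_strict n)
  obtain ⟨b, hb, hba⟩ := lift_near bbb 1 (bb_deriv (kap n) M hM h1 h2)
  -- the representation
  let f : Fin (k + 2) ⊕ Fin (k + 2) → (ℂ ≃ₜ ℂ) := Sum.elim (fam k tw bbb⁻¹) (fam k D2 dM)
  have hrel : ∀ r ∈ ({surfaceRelator (k + 2)} : Set (FreeGroup (Fin (k + 2) ⊕ Fin (k + 2)))),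
      FreeGroup.lift f r = 1 := by
    intro r hr
    rw [Set.mem_singleton_iff] at hr
    rw [hr, lift_relator]
    have : (List.ofFn fun i : Fin (k + 2) => ⁅f (Sum.inl i), f (Sum.inr i)⁆).prod =
        ⁅tw, D2⁆ * ⁅bbb⁻¹, dM⁆ := prod_fam k tw bbb⁻¹ D2 dM
    rw [this, first_commutator, second_commutator (hM0 := hM0), mul_inv_cancel]
  let ρ : SurfaceGroup (k + 2) →* (ℂ ≃ₜ ℂ) := PresentedGroup.toGroup hrel
  have hρ : ∀ x, ρ (PresentedGroup.of x) = f x := fun x => PresentedGroup.toGroup.of hrel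
  have htwG : Good tw := good_of_strict _ (psi_analytic n) 0 (psi_strict n)
  have hbG : Good bbb := good_of_strict _ (bb_analytic (kap n) M hM h1 h2) 1
    (bb_deriv (kap n) M hM h1 h2)
  have hD2 : Good D2 := good_dil 0 2 two_pos
  have hdMG : Good dM := good_dil 1 (M ^ 3) hM0
  have hfam : ∀ x y : ℂ ≃ₜ ℂ, Good x → Good y → ∀ i, Good (fam k x y i) := by
    intro x y hx hy i
    refine Fin.cases hx (fun j => ?_) i
    refine Fin.cases hy (fun l => ?_) j
    exact Good.one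
  have hfG : ∀ x, Good (f x) := by
    rintro (i | i)
    · exact hfam _ _ htwG hbG.inv i
    · exact hfam _ _ hD2 hdMG i
  have hG : ∀ γ, Good (ρ γ) := by
    intro γ
    have hγ : γ ∈ Subgroup.closure (Set.range
        (PresentedGroup.of (rels := ({surfaceRelator (k + 2)} :
          Set (FreeGroup (Fin (k + 2) ⊕ Fin (k + 2))))))) := by
      rw [PresentedGroup.closure_range_of]
      trivial
    induction hγ using Subgroup.closure_induction with
    | mem x hx =>
      obtain ⟨y, rfl⟩ := hx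
      rw [hρ]
      exact hfG y
    | one => rw [map_one]; exact Good.one
    | mul x y _ _ hx hy => rw [map_mul]; exact hx.mul hy
    | inv x _ hx => rw [map_inv]; exact hx.inv
  refine ⟨ρ, fun γ => ⟨(hG γ).1.1, (hG γ).2⟩, ?_, ?_⟩
  · -- existence of lifts
    refine ⟨fam k T b⁻¹, fam k (dilLift 0 2 two_pos) (dilLift 1 (M ^ 3) hM0), ?_, ?_⟩
    · intro i
      rw [hρ]
      refine Fin.cases hT (fun j => ?_) i
      refine Fin.cases ?_ (fun l => ?_) j
      · show (b⁻¹).homeo = bbb⁻¹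
        rw [inv_homeo, hb]
      · rfl
    · intro i
      rw [hρ]
      refine Fin.cases rfl (fun j => ?_) i
      refine Fin.cases rfl (fun l => ?_) j
      rfl
  · intro A B hA hB
    have hA' : ∀ i, ∃ c : ℤ, A i = central c * fam k T b⁻¹ i := by
      intro i
      apply lift_unique
      rw [hA i, hρ]
      refine Fin.cases hT.symm (fun j => ?_) i
      refine Fin.cases ?_ (fun l => ?_) j
      · show bbb⁻¹ = (b⁻¹).homeo
        rw [inv_homeo, hb]
      · rfl
    have hB' : ∀ i, ∃ c : ℤ,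
        B i = central c * fam k (dilLift 0 2 two_pos) (dilLift 1 (M ^ 3) hM0) i := by
      intro i
      apply lift_unique
      rw [hB i, hρ]
      refine Fin.cases rfl (fun j => ?_) i
      refine Fin.cases rfl (fun l => ?_) j
      rfl
    have hAB : (fun i => ⁅A i, B i⁆) = fun i =>
        ⁅fam k T b⁻¹ i, fam k (dilLift 0 2 two_pos) (dilLift 1 (M ^ 3) hM0) i⁆ := by
      funext i
      obtain ⟨c, hc⟩ := hA' i
      obtain ⟨d, hd⟩ := hB' i
      rw [hc, hd, comm_central]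
    rw [hAB, prod_fam]
    exact product_eq_central n M hM h1 h2 hM0 T hT hTa b hb hba

end

end Pool.Agent.Results.MP_aecd5f_gt.NoMilnorWood
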